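import Mathlib
import Pool.Agent.Helper59.RigSat

/-!
Not every closed rectangle-of-influence graph is a south corner rectangle visibility graph:
the closed RIG of eight explicit points (the join of two paths on four vertices) is not one.
-/

set_option autoImplicit false

namespace Pool.Agent.Results.MP_dc6ec3_co.RigNotScrvg

/-! ### Closed rectangle-of-influence graphs -/

/-- The closed axis-parallel rectangle having `A` and `B` as opposite corners. -/
def box (A B : ℝ × ℝ) : Set (ℝ × ℝ) :=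
  {p | min A.1 B.1 ≤ p.1 ∧ p.1 ≤ max A.1 B.1 ∧ min A.2 B.2 ≤ p.2 ∧ p.2 ≤ max A.2 B.2}

/-- The closed rectangle-of-influence graph of a finite point set: two different points are
adjacent exactly when `box A B` contains no other point of the set. -/
def closedRIG (P : Finset (ℝ × ℝ)) : SimpleGraph P where
  Adj A B := A ≠ B ∧ ∀ C : P, (C : ℝ × ℝ) ∈ box A B → C = A ∨ C = B
  symm := by
    constructor
    rintro A B ⟨h1, h2⟩
    refine ⟨h1.symm, fun C hC => ?_⟩
    have hbox : box (B : ℝ × ℝ) A = box A B := by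
      unfold box
      rw [min_comm (B : ℝ × ℝ).1, max_comm (B : ℝ × ℝ).1, min_comm (B : ℝ × ℝ).2,
        max_comm (B : ℝ × ℝ).2]
    rw [hbox] at hC
    exact (h2 C hC).symm
  loopless := by
    constructor
    rintro A ⟨h, _⟩
    exact h rfl

/-! ### South corner rectangle visibility graphs -/

/-- An axis-parallel rectangle of positive width and height, given by the coordinates of its
left, right, lower and upper side. -/
structure Rect where
  l : ℝ
  r : ℝ
  d : ℝ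
  u : ℝ
  hlr : l < r
  hdu : d < u

/-- The closed rectangle as a set. -/
def Rect.body (R : Rect) : Set (ℝ × ℝ) :=
  {p | R.l ≤ p.1 ∧ p.1 ≤ R.r ∧ R.d ≤ p.2 ∧ p.2 ≤ R.u}

/-- The boundary of the rectangle: the union of its four sides. -/
def Rect.bdry (R : Rect) : Set (ℝ × ℝ) :=
  {p | p ∈ R.body ∧ (p.1 = R.l ∨ p.1 = R.r ∨ p.2 = R.d ∨ p.2 = R.u)}

/-- The eye: the lower-right corner. -/
def Rect.eye (R : Rect) : ℝ × ℝ := (R.r, R.d)

/-- `p` and `q` are opposite corners of `Q`. -/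
def Rect.OppositeCorners (Q : Rect) (p q : ℝ × ℝ) : Prop :=
  (p = (Q.l, Q.d) ∧ q = (Q.r, Q.u)) ∨ (p = (Q.r, Q.u) ∧ q = (Q.l, Q.d)) ∨
  (p = (Q.l, Q.u) ∧ q = (Q.r, Q.d)) ∨ (p = (Q.r, Q.d) ∧ q = (Q.l, Q.u))

/-- Rectangle `i` of the family `F` sees rectangle `j`: some rectangle `Q` has one corner at the eye
of `i` and the opposite corner on the boundary of `j`, meets `i` exactly in the eye, meets `j` only
in boundary points of `j`, and is disjoint from all other rectangles of the family. -/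
def Sees {ι : Type} (F : ι → Rect) (i j : ι) : Prop :=
  ∃ (Q : Rect) (q : ℝ × ℝ), Q.OppositeCorners (F i).eye q ∧ q ∈ (F j).bdry ∧
    Q.body ∩ (F i).body = {(F i).eye} ∧ Q.body ∩ (F j).body ⊆ (F j).bdry ∧
    ∀ k, k ≠ i → k ≠ j → Disjoint Q.body (F k).body

/-- The visibility graph of a family of rectangles. -/
def visGraph {ι : Type} (F : ι → Rect) : SimpleGraph ι where
  Adj i j := i ≠ j ∧ (Sees F i j ∨ Sees F j i)
  symm := by
    constructor
    rintro i j ⟨h1, h2⟩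
    exact ⟨h1.symm, h2.symm⟩
  loopless := by
    constructor
    rintro i ⟨h, _⟩
    exact h rfl

/-- `G` is a south corner rectangle visibility graph: it is isomorphic to the visibility graph of a
finite family of pairwise disjoint rectangles. -/
def IsSCRVG {V : Type} (G : SimpleGraph V) : Prop :=
  ∃ (ι : Type) (_ : Finite ι) (F : ι → Rect),
    (∀ i j, i ≠ j → Disjoint (F i).body (F j).body) ∧ Nonempty (G ≃g visGraph F)

/-! ### Visibility in terms of the order of the coordinates -/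

theorem Rect.disj_or (R S : Rect) (h : Disjoint R.body S.body) :
    R.r < S.l ∨ S.r < R.l ∨ R.u < S.d ∨ S.u < R.d := by
  by_contra hcon
  push Not at hcon
  obtain ⟨h1, h2, h3, h4⟩ := hcon
  rw [Set.disjoint_left] at h
  refine h (a := (max R.l S.l, max R.d S.d)) ?_ ?_
  · exact ⟨le_max_left _ _, max_le R.hlr.le h1, le_max_left _ _, max_le R.hdu.le h3⟩
  · exact ⟨le_max_right _ _, max_le h2 S.hlr.le, le_max_right _ _, max_le h4 S.hdu.le⟩

def K0 {ι : Type} (F : ι → Rect) (i j : ι) : Prop :=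
  (F i).r < (F j).l ∧ (F j).u < (F i).d ∧ ∀ k, k ≠ i → k ≠ j →
    ¬ ((F k).l ≤ (F j).l ∧ (F i).r ≤ (F k).r ∧ (F k).d ≤ (F i).d ∧ (F j).u ≤ (F k).u)

def K1 {ι : Type} (F : ι → Rect) (i j : ι) : Prop :=
  (F i).r < (F j).l ∧ (F j).d < (F i).d ∧ (F i).d ≤ (F j).u ∧ ∀ k, k ≠ i → k ≠ j →
    ¬ ((F k).l ≤ (F j).l ∧ (F i).r ≤ (F k).r ∧ (F k).d ≤ (F i).d ∧ (F i).d ≤ (F k).u)

def K2 {ι : Type} (F : ι → Rect) (i j : ι) : Prop :=
  (F j).u < (F i).d ∧ (F j).l ≤ (F i).r ∧ (F i).r < (F j).r ∧ ∀ k, k ≠ i → k ≠ j →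
    ¬ ((F k).l ≤ (F i).r ∧ (F i).r ≤ (F k).r ∧ (F k).d ≤ (F i).d ∧ (F j).u ≤ (F k).u)

theorem sees_imp {ι : Type} (F : ι → Rect) (i j : ι) (h : Sees F i j) :
    K0 F i j ∨ K1 F i j ∨ K2 F i j := by
  obtain ⟨Q, q, hq, hqb, hQi, hQj, hQk⟩ := h
  have hi1 := (F i).hlr
  have hi2 := (F i).hdu
  have hQ1 := Q.hlr
  have hQ2 := Q.hdu
  -- a point of `Q` in rectangle `i` is the eye
  have hsub : ∀ x y : ℝ, Q.l ≤ x → x ≤ Q.r → Q.d ≤ y → y ≤ Q.u → (F i).l ≤ x → x ≤ (F i).r →
      (F i).d ≤ y → y ≤ (F i).u → x = (F i).r ∧ y = (F i).d := by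
    intro x y h1 h2 h3 h4 h5 h6 h7 h8
    have hm : (x, y) ∈ Q.body ∩ (F i).body := ⟨⟨h1, h2, h3, h4⟩, ⟨h5, h6, h7, h8⟩⟩
    rw [hQi] at hm
    have he : (x, y) = (F i).eye := hm
    exact ⟨congrArg Prod.fst he, congrArg Prod.snd he⟩
  have key : (F i).r = Q.l ∧ (F i).d = Q.u ∧ q = (Q.r, Q.d) := by
    rcases hq with ⟨h1, h2⟩ | ⟨h1, h2⟩ | ⟨h1, h2⟩ | ⟨h1, h2⟩
    · exfalso
      have e1 : (F i).r = Q.l := congrArg Prod.fst h1
      have e2 : (F i).d = Q.d := congrArg Prod.snd h1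
      have := hsub (F i).r (min Q.u (F i).u) (by linarith) (by linarith)
        (le_min (by linarith) (by linarith)) (min_le_left _ _) hi1.le le_rfl
        (le_min (by linarith) (by linarith)) (min_le_right _ _)
      have h3 : (F i).d < min Q.u (F i).u := lt_min (by linarith) hi2
      linarith [this.2]
    · exfalso
      have e1 : (F i).r = Q.r := congrArg Prod.fst h1
      have e2 : (F i).d = Q.u := congrArg Prod.snd h1
      have := hsub (max Q.l (F i).l) (F i).d (le_max_left _ _)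
        (max_le (by linarith) (by linarith)) (by linarith) (by linarith) (le_max_right _ _)
        (max_le (by linarith) (by linarith)) le_rfl hi2.le
      have h3 : max Q.l (F i).l < (F i).r := max_lt (by linarith) hi1
      linarith [this.1]
    · exact ⟨congrArg Prod.fst h1, congrArg Prod.snd h1, h2⟩
    · exfalso
      have e1 : (F i).r = Q.r := congrArg Prod.fst h1
      have e2 : (F i).d = Q.d := congrArg Prod.snd h1
      have := hsub (max Q.l (F i).l) (F i).d (le_max_left _ _)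
        (max_le (by linarith) (by linarith)) (by linarith) (by linarith) (le_max_right _ _)
        (max_le (by linarith) (by linarith)) le_rfl hi2.le
      have h3 : max Q.l (F i).l < (F i).r := max_lt (by linarith) hi1
      linarith [this.1]
  obtain ⟨e1, e2, e3⟩ := key
  rw [e3] at hqb
  obtain ⟨⟨b1, b2, b3, b4⟩, _⟩ := hqb
  simp only at b1 b2 b3 b4
  -- no point of `Q` is in the interior of rectangle `j`
  have hint : ∀ x y : ℝ, Q.l ≤ x → x ≤ Q.r → Q.d ≤ y → y ≤ Q.u → (F j).l < x → x < (F j).r →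
      (F j).d < y → y < (F j).u → False := by
    intro x y h1 h2 h3 h4 h5 h6 h7 h8
    have hm := hQj ⟨(⟨h1, h2, h3, h4⟩ : (x, y) ∈ Q.body), ⟨h5.le, h6.le, h7.le, h8.le⟩⟩
    rcases hm.2 with h | h | h | h
    · simp only at h; linarith
    · simp only at h; linarith
    · simp only at h; linarith
    · simp only at h; linarith
  have hcase : Q.r = (F j).l ∨ Q.d = (F j).u := by
    by_contra hcon
    push Not at hcon
    have c1 : (F j).l < Q.r := lt_of_le_of_ne b1 (Ne.symm hcon.1)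
    have c2 : Q.d < (F j).u := lt_of_le_of_ne b4 hcon.2
    obtain ⟨x, hx1, hx2⟩ := exists_between (max_lt hQ1 c1)
    obtain ⟨y, hy1, hy2⟩ := exists_between (lt_min hQ2 c2)
    rw [max_lt_iff] at hx1
    rw [lt_min_iff] at hy2
    exact hint x y hx1.1.le hx2.le hy1.le hy2.1.le hx1.2 (by linarith) (by linarith) hy2.2
  -- blockers
  have hblock : ∀ k, k ≠ i → k ≠ j → ∀ x y : ℝ, Q.l ≤ x → x ≤ Q.r → Q.d ≤ y → y ≤ Q.u →
      (F k).l ≤ x → x ≤ (F k).r → (F k).d ≤ y → y ≤ (F k).u → False := by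
    intro k hki hkj x y h1 h2 h3 h4 h5 h6 h7 h8
    exact Set.disjoint_left.mp (hQk k hki hkj)
      (show (x, y) ∈ Q.body from ⟨h1, h2, h3, h4⟩) ⟨h5, h6, h7, h8⟩
  rcases hcase with hc | hc
  · rcases lt_or_ge (F j).u (F i).d with hu | hu
    · left
      refine ⟨by linarith, hu, ?_⟩
      rintro k hki hkj ⟨g1, g2, g3, g4⟩
      refine hblock k hki hkj (max (F k).l (F i).r) (max (F k).d (F j).u) ?_ ?_ ?_ ?_
        (le_max_left _ _) (max_le (F k).hlr.le g2) (le_max_left _ _) (max_le (F k).hdu.le g4)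
      · rw [← e1]; exact le_max_right _ _
      · exact max_le (by linarith) (by linarith)
      · exact le_trans b4 (le_max_right _ _)
      · exact max_le (by linarith) (by linarith)
    · right; left
      refine ⟨by linarith, by linarith, hu, ?_⟩
      rintro k hki hkj ⟨g1, g2, g3, g4⟩
      refine hblock k hki hkj (max (F k).l (F i).r) (F i).d ?_ ?_ ?_ ?_
        (le_max_left _ _) (max_le (F k).hlr.le g2) g3 g4
      · rw [← e1]; exact le_max_right _ _
      · exact max_le (by linarith) (by linarith)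
      · linarith
      · linarith
  · rcases le_or_gt (F j).l (F i).r with hl | hl
    · right; right
      refine ⟨by linarith, hl, by linarith, ?_⟩
      rintro k hki hkj ⟨g1, g2, g3, g4⟩
      refine hblock k hki hkj (F i).r (max (F k).d (F j).u) ?_ ?_ ?_ ?_
        g1 g2 (le_max_left _ _) (max_le (F k).hdu.le g4)
      · linarith
      · linarith
      · rw [hc]; exact le_max_right _ _
      · exact max_le (by linarith) (by linarith)
    · left
      refine ⟨hl, by linarith, ?_⟩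
      rintro k hki hkj ⟨g1, g2, g3, g4⟩
      refine hblock k hki hkj (max (F k).l (F i).r) (max (F k).d (F j).u) ?_ ?_ ?_ ?_
        (le_max_left _ _) (max_le (F k).hlr.le g2) (le_max_left _ _) (max_le (F k).hdu.le g4)
      · rw [← e1]; exact le_max_right _ _
      · exact max_le (by linarith) (by linarith)
      · rw [hc]; exact le_max_right _ _
      · exact max_le (by linarith) (by linarith)

theorem K0_sees {ι : Type} (F : ι → Rect) (i j : ι) (h : K0 F i j) : Sees F i j := by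
  obtain ⟨h1, h2, h3⟩ := h
  have hi1 := (F i).hlr
  have hi2 := (F i).hdu
  refine ⟨⟨(F i).r, (F j).l, (F j).u, (F i).d, h1, h2⟩, ((F j).l, (F j).u), ?_, ?_, ?_, ?_, ?_⟩
  · exact Or.inr (Or.inr (Or.inl ⟨rfl, rfl⟩))
  · exact ⟨⟨le_rfl, (F j).hlr.le, (F j).hdu.le, le_rfl⟩, Or.inl rfl⟩
  · ext ⟨x, y⟩
    constructor
    · rintro ⟨⟨a1, a2, a3, a4⟩, ⟨b1, b2, b3, b4⟩⟩
      simp only at a1 a2 a3 a4 b1 b2 b3 b4
      show (x, y) = ((F i).r, (F i).d)
      rw [le_antisymm b2 a1, le_antisymm a4 b3]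
    · intro hxy
      have hxy' : (x, y) = ((F i).r, (F i).d) := hxy
      rw [hxy']
      exact ⟨⟨le_rfl, h1.le, h2.le, le_rfl⟩, ⟨hi1.le, le_rfl, le_rfl, hi2.le⟩⟩
  · rintro ⟨x, y⟩ ⟨⟨a1, a2, a3, a4⟩, hb⟩
    refine ⟨hb, Or.inl ?_⟩
    exact le_antisymm a2 hb.1
  · intro k hki hkj
    rw [Set.disjoint_left]
    rintro ⟨x, y⟩ ⟨a1, a2, a3, a4⟩ ⟨b1, b2, b3, b4⟩
    simp only at a1 a2 a3 a4 b1 b2 b3 b4
    exact h3 k hki hkj ⟨by linarith, by linarith, by linarith, by linarith⟩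

theorem K1_sees {ι : Type} [Finite ι] (F : ι → Rect) (i j : ι) (h : K1 F i j) : Sees F i j := by
  obtain ⟨h1, h2, h2', h3⟩ := h
  have hi1 := (F i).hlr
  have hi2 := (F i).hdu
  obtain ⟨t, ⟨ht1, ht2⟩, ht3⟩ : ∃ t, t ∈ Set.Ioo (F j).d (F i).d ∧
      ∀ k, (F k).u < (F i).d → (F k).u < t := by
    have ev1 : ∀ᶠ t in nhdsWithin (F i).d (Set.Iio (F i).d), t ∈ Set.Ioo (F j).d (F i).d :=
      Ioo_mem_nhdsLT h2
    have ev2 : ∀ᶠ t in nhdsWithin (F i).d (Set.Iio (F i).d),
        ∀ k, (F k).u < (F i).d → (F k).u < t := by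
      rw [Filter.eventually_all]
      intro k
      by_cases hk : (F k).u < (F i).d
      · filter_upwards [Ioo_mem_nhdsLT hk] with t ht _
        exact ht.1
      · exact Filter.Eventually.of_forall fun t hk' => absurd hk' hk
    exact (ev1.and ev2).exists
  refine ⟨⟨(F i).r, (F j).l, t, (F i).d, h1, ht2⟩, ((F j).l, t), ?_, ?_, ?_, ?_, ?_⟩
  · exact Or.inr (Or.inr (Or.inl ⟨rfl, rfl⟩))
  · exact ⟨⟨le_rfl, (F j).hlr.le, ht1.le, by simp only; linarith⟩, Or.inl rfl⟩
  · ext ⟨x, y⟩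
    constructor
    · rintro ⟨⟨a1, a2, a3, a4⟩, ⟨b1, b2, b3, b4⟩⟩
      simp only at a1 a2 a3 a4 b1 b2 b3 b4
      show (x, y) = ((F i).r, (F i).d)
      rw [le_antisymm b2 a1, le_antisymm a4 b3]
    · intro hxy
      have hxy' : (x, y) = ((F i).r, (F i).d) := hxy
      rw [hxy']
      exact ⟨⟨le_rfl, h1.le, ht2.le, le_rfl⟩, ⟨hi1.le, le_rfl, le_rfl, hi2.le⟩⟩
  · rintro ⟨x, y⟩ ⟨⟨a1, a2, a3, a4⟩, hb⟩
    refine ⟨hb, Or.inl ?_⟩
    exact le_antisymm a2 hb.1
  · intro k hki hkj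
    rw [Set.disjoint_left]
    rintro ⟨x, y⟩ ⟨a1, a2, a3, a4⟩ ⟨b1, b2, b3, b4⟩
    simp only at a1 a2 a3 a4 b1 b2 b3 b4
    rcases lt_or_ge (F k).u (F i).d with hk | hk
    · have := ht3 k hk
      linarith
    · exact h3 k hki hkj ⟨by linarith, by linarith, by linarith, by linarith⟩

theorem K2_sees {ι : Type} [Finite ι] (F : ι → Rect) (i j : ι) (h : K2 F i j) : Sees F i j := by
  obtain ⟨h1, h2, h2', h3⟩ := h
  have hi1 := (F i).hlr
  have hi2 := (F i).hdu
  obtain ⟨s, ⟨hs1, hs2⟩, hs3⟩ : ∃ s, s ∈ Set.Ioo (F i).r (F j).r ∧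
      ∀ k, (F i).r < (F k).l → s < (F k).l := by
    have ev1 : ∀ᶠ s in nhdsWithin (F i).r (Set.Ioi (F i).r), s ∈ Set.Ioo (F i).r (F j).r :=
      Ioo_mem_nhdsGT h2'
    have ev2 : ∀ᶠ s in nhdsWithin (F i).r (Set.Ioi (F i).r),
        ∀ k, (F i).r < (F k).l → s < (F k).l := by
      rw [Filter.eventually_all]
      intro k
      by_cases hk : (F i).r < (F k).l
      · filter_upwards [Ioo_mem_nhdsGT hk] with s hs _
        exact hs.2
      · exact Filter.Eventually.of_forall fun s hk' => absurd hk' hk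
    exact (ev1.and ev2).exists
  refine ⟨⟨(F i).r, s, (F j).u, (F i).d, hs1, h1⟩, (s, (F j).u), ?_, ?_, ?_, ?_, ?_⟩
  · exact Or.inr (Or.inr (Or.inl ⟨rfl, rfl⟩))
  · exact ⟨⟨by simp only; linarith, hs2.le, (F j).hdu.le, le_rfl⟩, Or.inr (Or.inr (Or.inr rfl))⟩
  · ext ⟨x, y⟩
    constructor
    · rintro ⟨⟨a1, a2, a3, a4⟩, ⟨b1, b2, b3, b4⟩⟩
      simp only at a1 a2 a3 a4 b1 b2 b3 b4
      show (x, y) = ((F i).r, (F i).d)
      rw [le_antisymm b2 a1, le_antisymm a4 b3]
    · intro hxy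
      have hxy' : (x, y) = ((F i).r, (F i).d) := hxy
      rw [hxy']
      exact ⟨⟨le_rfl, hs1.le, h1.le, le_rfl⟩, ⟨hi1.le, le_rfl, le_rfl, hi2.le⟩⟩
  · rintro ⟨x, y⟩ ⟨⟨a1, a2, a3, a4⟩, hb⟩
    refine ⟨hb, Or.inr (Or.inr (Or.inr ?_))⟩
    exact le_antisymm hb.2.2.2 a3
  · intro k hki hkj
    rw [Set.disjoint_left]
    rintro ⟨x, y⟩ ⟨a1, a2, a3, a4⟩ ⟨b1, b2, b3, b4⟩
    simp only at a1 a2 a3 a4 b1 b2 b3 b4
    rcases lt_or_ge (F i).r (F k).l with hk | hk
    · have := hs3 k hk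
      linarith
    · exact h3 k hki hkj ⟨by linarith, by linarith, by linarith, by linarith⟩

/-! ### The eight points -/

/-- the coordinates of the points -/
def px (i : ℕ) : ℕ := i
def py (i : ℕ) : ℕ := if i < 4 then 3 - i else 11 - i

/-- the eight points `(0,3), (1,2), (2,1), (3,0), (4,7), (5,6), (6,5), (7,4)` -/
noncomputable def pt (i : ℕ) : ℝ × ℝ := ((px i : ℝ), (py i : ℝ))

open Classical in
noncomputable def pts : Finset (ℝ × ℝ) := (Finset.range 8).image pt

theorem pt_inj {i j : ℕ} (h : pt i = pt j) : i = j := by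
  have := congrArg Prod.fst h
  simpa [pt, px] using this

theorem mem_pts {i : ℕ} (hi : i < 8) : pt i ∈ pts := by
  unfold pts
  exact Finset.mem_image_of_mem _ (Finset.mem_range.mpr hi)

theorem mem_box (i j k : ℕ) : pt k ∈ box (pt i) (pt j) ↔
    min (px i) (px j) ≤ px k ∧ px k ≤ max (px i) (px j) ∧
    min (py i) (py j) ≤ py k ∧ py k ≤ max (py i) (py j) := by
  unfold box pt
  simp only [Set.mem_ofPred_eq]
  norm_cast

/-- adjacency of the closed RIG in terms of indices -/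
theorem adj_iff (i j : ℕ) (hi : i < 8) (hj : j < 8) :
    (closedRIG pts).Adj ⟨pt i, mem_pts hi⟩ ⟨pt j, mem_pts hj⟩ ↔
    i ≠ j ∧ ∀ k < 8, (min (px i) (px j) ≤ px k ∧ px k ≤ max (px i) (px j) ∧
      min (py i) (py j) ≤ py k ∧ py k ≤ max (py i) (py j)) → k = i ∨ k = j := by
  constructor
  · rintro ⟨h1, h2⟩
    refine ⟨fun h => h1 (by subst h; rfl), fun k hk hbox => ?_⟩
    rw [← mem_box] at hbox
    rcases h2 ⟨pt k, mem_pts hk⟩ hbox with h | h
    · left
      exact pt_inj (congrArg Subtype.val h)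
    · right
      exact pt_inj (congrArg Subtype.val h)
  · rintro ⟨h1, h2⟩
    refine ⟨fun h => h1 (pt_inj (congrArg Subtype.val h)), ?_⟩
    rintro ⟨C, hC⟩ hbox
    have hC' := hC
    unfold pts at hC'
    rw [Finset.mem_image] at hC'
    obtain ⟨k, hk, rfl⟩ := hC'
    rw [Finset.mem_range] at hk
    rw [mem_box] at hbox
    rcases h2 k hk hbox with h | h
    · left
      subst h
      rfl
    · right
      subst h
      rfl

open Pool.Agent.Helper59 in
theorem edges_adj : ∀ p ∈ RigCnf.edges, p.1 < 8 ∧ p.2 < 8 ∧ p.1 ≠ p.2 ∧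
    ∀ k < 8, (min (px p.1) (px p.2) ≤ px k ∧ px k ≤ max (px p.1) (px p.2) ∧
      min (py p.1) (py p.2) ≤ py k ∧ py k ≤ max (py p.1) (py p.2)) → k = p.1 ∨ k = p.2 := by
  decide

open Pool.Agent.Helper59 in
theorem non_adj : ∀ p ∈ RigCnf.nonD, p.1 < 8 ∧ p.2 < 8 ∧ p.1 ≠ p.2 ∧
    ¬ ∀ k < 8, (min (px p.1) (px p.2) ≤ px k ∧ px k ≤ max (px p.1) (px p.2) ∧
      min (py p.1) (py p.2) ≤ py k ∧ py k ≤ max (py p.1) (py p.2)) → k = p.1 ∨ k = p.2 := by
  decide

open Pool.Agent.Helper59 Pool.Agent.Helper59.RigSat in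
theorem not_scrvg : ¬ IsSCRVG (closedRIG pts) := by
  rintro ⟨ι, hfin, F, hdis, ⟨e⟩⟩
  -- the rectangle with a given index
  let idx : ℕ → ι := fun i => if h : i < 8 then e ⟨pt i, mem_pts h⟩ else e ⟨pt 0, mem_pts (by norm_num)⟩
  have hidx : ∀ i (h : i < 8), idx i = e ⟨pt i, mem_pts h⟩ := fun i h => dif_pos h
  have hinj : ∀ i j, i < 8 → j < 8 → idx i = idx j → i = j := by
    intro i j hi hj h
    rw [hidx i hi, hidx j hj] at h
    exact pt_inj (congrArg Subtype.val (e.injective h))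
  have hsurj : ∀ k : ι, ∃ C < 8, idx C = k := by
    intro k
    obtain ⟨⟨c, hc⟩, rfl⟩ := e.surjective k
    have hc' := hc
    unfold pts at hc'
    rw [Finset.mem_image] at hc'
    obtain ⟨C, hC, rfl⟩ := hc'
    rw [Finset.mem_range] at hC
    exact ⟨C, hC, hidx C hC⟩
  let xs : ℕ → ℝ := fun n => if n % 2 = 0 then (F (idx (n / 2))).l else (F (idx (n / 2))).r
  let ys : ℕ → ℝ := fun n => if n % 2 = 0 then (F (idx (n / 2))).d else (F (idx (n / 2))).u
  have xs0 : ∀ i, xs (2 * i) = (F (idx i)).l := by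
    intro i
    simp only [xs]
    rw [if_pos (by omega)]
    congr 3
    omega
  have xs1 : ∀ i, xs (2 * i + 1) = (F (idx i)).r := by
    intro i
    simp only [xs]
    rw [if_neg (by omega)]
    congr 3
    omega
  have ys0 : ∀ i, ys (2 * i) = (F (idx i)).d := by
    intro i
    simp only [ys]
    rw [if_pos (by omega)]
    congr 3
    omega
  have ys1 : ∀ i, ys (2 * i + 1) = (F (idx i)).u := by
    intro i
    simp only [ys]
    rw [if_neg (by omega)]
    congr 3
    omega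
  -- translation of the conditions
  have hall : ∀ (A B : ℕ) (hA : A < 8) (hB : B < 8) (p : ι → Prop),
      (∀ k, k ≠ idx A → k ≠ idx B → ¬ p k) ↔ (∀ C < 8, C ≠ A → C ≠ B → ¬ p (idx C)) := by
    intro A B hA hB p
    constructor
    · intro h C hC hCA hCB
      exact h (idx C) (fun h' => hCA (hinj _ _ hC hA h')) (fun h' => hCB (hinj _ _ hC hB h'))
    · intro h k hkA hkB
      obtain ⟨C, hC, rfl⟩ := hsurj k
      exact h C hC (fun h' => hkA (by rw [h'])) (fun h' => hkB (by rw [h']))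
  have t0 : ∀ A B, A < 8 → B < 8 → (K0 F (idx A) (idx B) ↔ KS xs ys A B 0) := by
    intro A B hA hB
    unfold K0 KS
    simp only [Kpos, Kblk, xs0, xs1, ys0, ys1]
    rw [hall A B hA hB]
    tauto
  have t1 : ∀ A B, A < 8 → B < 8 → (K1 F (idx A) (idx B) ↔ KS xs ys A B 1) := by
    intro A B hA hB
    unfold K1 KS
    simp only [Kpos, Kblk, xs0, xs1, ys0, ys1]
    rw [hall A B hA hB]
    tauto
  have t2 : ∀ A B, A < 8 → B < 8 → (K2 F (idx A) (idx B) ↔ KS xs ys A B 2) := by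
    intro A B hA hB
    unfold K2 KS
    simp only [Kpos, Kblk, xs0, xs1, ys0, ys1]
    rw [hall A B hA hB]
    tauto
  have hsee : ∀ A B, A < 8 → B < 8 → Sees F (idx A) (idx B) → ∃ k < 3, KS xs ys A B k := by
    intro A B hA hB h
    rcases sees_imp F _ _ h with h | h | h
    · exact ⟨0, by norm_num, (t0 A B hA hB).mp h⟩
    · exact ⟨1, by norm_num, (t1 A B hA hB).mp h⟩
    · exact ⟨2, by norm_num, (t2 A B hA hB).mp h⟩
  have hsee' : ∀ A B k, A < 8 → B < 8 → k < 3 → KS xs ys A B k → Sees F (idx A) (idx B) := by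
    intro A B k hA hB hk h
    interval_cases k
    · exact K0_sees F _ _ ((t0 A B hA hB).mpr h)
    · exact K1_sees F _ _ ((t1 A B hA hB).mpr h)
    · exact K2_sees F _ _ ((t2 A B hA hB).mpr h)
  refine contra (xs := xs) (ys := ys) ⟨?_, ?_, ?_, ?_, ?_⟩
  · intro i _
    rw [xs0, xs1]
    exact (F (idx i)).hlr
  · intro i _
    rw [ys0, ys1]
    exact (F (idx i)).hdu
  · intro i hi j hj hij
    rw [xs0, xs1, ys0, ys1, xs0, xs1, ys0, ys1]
    exact Rect.disj_or _ _ (hdis _ _ (fun h => hij (hinj _ _ hi hj h)))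
  · rintro ⟨A, B⟩ hp
    obtain ⟨hA, hB, hne, hadj⟩ := edges_adj _ hp
    simp only at hA hB hne hadj ⊢
    have h1 := (adj_iff A B hA hB).mpr ⟨hne, hadj⟩
    have h2 := e.map_rel_iff.mpr h1
    rw [← hidx A hA, ← hidx B hB] at h2
    rcases h2.2 with h | h
    · obtain ⟨k, hk, h'⟩ := hsee A B hA hB h
      exact ⟨k, hk, Or.inl h'⟩
    · obtain ⟨k, hk, h'⟩ := hsee B A hB hA h
      exact ⟨k, hk, Or.inr h'⟩
  · rintro ⟨A, B⟩ hp k hk hK
    obtain ⟨hA, hB, hne, hadj⟩ := non_adj _ hp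
    simp only at hA hB hne hadj hK
    have h1 := hsee' A B k hA hB hk hK
    have h2 : (visGraph F).Adj (idx A) (idx B) :=
      ⟨fun h => hne (hinj _ _ hA hB h), Or.inl h1⟩
    rw [hidx A hA, hidx B hB] at h2
    have h3 := e.map_rel_iff.mp h2
    exact hadj ((adj_iff A B hA hB).mp h3).2

/-- Some closed rectangle-of-influence graph, namely one of eight points, is not a south corner
rectangle visibility graph. -/
theorem result : ∃ P : Finset (ℝ × ℝ), P.card = 8 ∧ ¬ IsSCRVG (closedRIG P) := by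
  refine ⟨pts, ?_, not_scrvg⟩
  unfold pts
  rw [Finset.card_image_of_injective _ (fun i j h => pt_inj h), Finset.card_range]

end Pool.Agent.Results.MP_dc6ec3_co.RigNotScrvg
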